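import Mathlib
import Pool.Agent.Q106.IG.Counting

set_option autoImplicit false

/-!
# A hereditary property within the speed limit which needs labels with `δ √n log n` bits

A graph property is a set `P n` of graphs on the vertex set `Fin n` for every `n`. It is hereditary
(closed under induced subgraphs and isomorphisms) if `G.comap f ∈ P m` for all `G ∈ P n` and all
injections `f : Fin m ↪ Fin n`.

We construct a hereditary property with at most `n ^ (37 n)` graphs on `n` labelled vertices, for all
`n`, such that for every decoder `A`, computable or not, and for arbitrarily large `n` there is a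
graph in `P n` all of whose labellings which are decoded correctly by `A` have a label with more than
`√n log n / 48` bits. In particular there is no local representation with `O(√n)`-bit labels.

Method (a sharp form of the counting argument of Hatami and Hatami). Let `s = 2 ^ (24 v)`, `v = 2 ^ w`,
`n = s ^ 2`, `b = v s`, so `b` is of the order `√n log n`. A random graph `H` on `n` vertices with edge
probability `8 v / s` has at least `(b + 2) n` edges, while every set of `k ≤ s` vertices spans at
most `96 v k` edges, and at most `12 k` edges if `k ^ 2 ≤ s`. Among the subgraphs of `H` there are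
`4 ^ (b + 1)` graphs such that no decoder represents all of them with labels of at most `b` bits
(there are at most `2 ^ (4 ^ (b + 1))` decoders). The property consists of the induced subgraphs of all
these graphs. The number of the induced subgraphs with `k` vertices is at most `n ^ k 2 ^ (96 v k)` for
`k ≤ s`, because they are subgraphs of subgraphs of the one graph `H`, and at most
`4 ^ (b + 1) n ^ k` for `k > s`; both are at most `n ^ (3 k)`. For `k ^ 4 ≤ n` all these graphs have at most
`12 k` edges.
-/

namespace Pool.Agent.Results.MP_3772ec_co.SquareRootLabelsFail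

open Pool.Agent.Q106.IG

/-- The labelling `ℓ` of the graph `G` by bit strings is decoded correctly by `A`. -/
def Decodes (A : List Bool → List Bool → Bool) {n : ℕ} (G : SimpleGraph (Fin n))
    (ℓ : Fin n → List Bool) : Prop :=
  ∀ v w, v ≠ w → (G.Adj v w ↔ A (ℓ v) (ℓ w) = true)

theorem exists_data (w : ℕ) : ∃ H : SimpleGraph (Fin (nn w)),
    (∀ k, 1 ≤ k → k ≤ ss w → ∀ f : Fin k ↪ Fin (nn w),
      (H.comap f).edgeSet.ncard < tt w k * k) ∧
    ∃ g : Fin (4 ^ (bb w + 1)) → SimpleGraph (Fin (nn w)), (∀ i, g i ≤ H) ∧
      ∀ A : List Bool → List Bool → Bool, ∃ i, ∀ ℓ : Fin (nn w) → List Bool,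
        (∀ u v, u ≠ v → ((g i).Adj u v ↔ A (ℓ u) (ℓ v) = true)) → ∃ v, bb w < (ℓ v).length := by
  obtain ⟨H, h1, h2⟩ := host w
  have hn : 2 ≤ nn w := by
    have := ss_large w
    unfold nn
    nlinarith
  exact ⟨H, h2, exists_tuple H hn h1⟩

theorem le_nn (w : ℕ) : w ≤ nn w := by
  rw [nn_eq]
  have h1 : w < 2 ^ w := Nat.lt_two_pow_self
  have h2 : 48 * 2 ^ w < 2 ^ (48 * 2 ^ w) := Nat.lt_two_pow_self
  omega

theorem lt_of_nn_lt (w k : ℕ) (h : nn w < k ^ 4) : w < k := by
  by_contra hcon
  push Not at hcon
  have h1 : k < 2 ^ k := Nat.lt_two_pow_self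
  have h2 : k ^ 4 ≤ (2 ^ k) ^ 4 := Nat.pow_le_pow_left h1.le 4
  have h3 : (2 ^ k) ^ 4 ≤ nn w := by
    rw [nn_eq, ← pow_mul]
    apply Nat.pow_le_pow_right (by norm_num)
    have h4 : k < 2 ^ k := Nat.lt_two_pow_self
    have h5 : 2 ^ k ≤ 2 ^ w := Nat.pow_le_pow_right (by norm_num) hcon
    omega
  omega

theorem result : ∃ P : ∀ n : ℕ, Set (SimpleGraph (Fin n)),
    -- the property is hereditary
    (∀ (m n : ℕ) (f : Fin m ↪ Fin n), ∀ G ∈ P n, G.comap f ∈ P m) ∧
    -- and satisfies the speed limit
    (∀ n : ℕ, (P n).ncard ≤ n ^ (37 * n)) ∧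
    -- labels with more than `√n log n / 48` bits are needed
    (∀ (A : List Bool → List Bool → Bool) (N : ℕ), ∃ n ≥ N, ∃ G ∈ P n,
      ∀ ℓ : Fin n → List Bool, Decodes A G ℓ →
        ∃ v, Real.sqrt n * Real.log n / 48 < ((ℓ v).length : ℝ)) ∧
    -- in particular, labels with at most `c √n` bits are not enough
    (∀ (c : ℝ) (A : List Bool → List Bool → Bool) (N : ℕ), ∃ n ≥ N, ∃ G ∈ P n,
      ¬ ∃ ℓ : Fin n → List Bool, Decodes A G ℓ ∧ ∀ v, ((ℓ v).length : ℝ) ≤ c * Real.sqrt n) := by
  classical
  choose H hH g hg hA using exists_data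
  refine ⟨fun k => {G | ∃ w, ∃ i, ∃ f : Fin k ↪ Fin (nn w), G = (g w i).comap f}, ?_, ?_, ?_⟩
  · rintro m n f G ⟨w, i, f', rfl⟩
    refine ⟨w, i, f.trans f', ?_⟩
    ext a b
    simp
  · intro k
    rcases Nat.lt_or_ge k 2 with hk | hk
    · have hsub : Subsingleton (SimpleGraph (Fin k)) := by
        have : Subsingleton (Fin k) := Fin.subsingleton_iff_le_one.2 (by omega)
        infer_instance
      have h1 : ∀ S : Set (SimpleGraph (Fin k)), S.ncard ≤ 1 := by
        intro S
        rw [Set.ncard_le_one_iff_eq]
        rcases S.eq_empty_or_nonempty with h | ⟨a, ha⟩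
        · exact Or.inl h
        · exact Or.inr ⟨a, Set.eq_singleton_iff_unique_mem.2 ⟨ha, fun b _ => Subsingleton.elim _ _⟩⟩
      refine (h1 _).trans ?_
      interval_cases k <;> simp
    · have hsub : {G : SimpleGraph (Fin k) | ∃ w, ∃ i, ∃ f : Fin k ↪ Fin (nn w),
          G = (g w i).comap f} ⊆
          (⋃ w ∈ (Finset.range k).filter (fun w => nn w < k ^ 4),
            {G : SimpleGraph (Fin k) | ∃ i, ∃ f : Fin k ↪ Fin (nn w), G = (g w i).comap f}) ∪
          {G : SimpleGraph (Fin k) | G.edgeSet.ncard ≤ 12 * k} := by
        rintro G ⟨w, i, f, rfl⟩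
        by_cases hw : nn w < k ^ 4
        · left
          simp only [Set.mem_iUnion]
          refine ⟨w, ?_, i, f, rfl⟩
          rw [Finset.mem_filter, Finset.mem_range]
          exact ⟨lt_of_nn_lt w k hw, hw⟩
        · right
          push Not at hw
          have hks : k ^ 2 ≤ ss w := by
            unfold nn at hw
            have : (k ^ 2) ^ 2 ≤ ss w ^ 2 := by rw [← pow_mul]; exact hw
            exact (Nat.pow_le_pow_iff_left (by norm_num)).1 this
          have hks2 : k ≤ ss w := (Nat.le_self_pow (by norm_num) k).trans hks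
          have h1 := hH w k (by omega) hks2 f
          have h2 : tt w k = 12 := by unfold tt; rw [if_pos hks]
          rw [h2] at h1
          have h3 : ((g w i).comap f).edgeSet.ncard ≤ ((H w).comap f).edgeSet.ncard := by
            apply Set.ncard_le_ncard _ (Set.toFinite _)
            exact SimpleGraph.edgeSet_mono (SimpleGraph.comap_monotone f (hg w i))
          exact (h3.trans h1.le : _ ≤ 12 * k)
      refine (Set.ncard_le_ncard hsub (Set.toFinite _)).trans ?_
      refine (Set.ncard_union_le _ _).trans ?_
      have h1 : (⋃ w ∈ (Finset.range k).filter (fun w => nn w < k ^ 4),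
            {G : SimpleGraph (Fin k) | ∃ i, ∃ f : Fin k ↪ Fin (nn w),
              G = (g w i).comap f}).ncard ≤ k * k ^ (12 * k) := by
        have h2 : (⋃ w ∈ (Finset.range k).filter (fun w => nn w < k ^ 4),
            {G : SimpleGraph (Fin k) | ∃ i, ∃ f : Fin k ↪ Fin (nn w),
              G = (g w i).comap f}) = (((Finset.range k).filter (fun w => nn w < k ^ 4)).biUnion
              (fun w => (Set.toFinite {G : SimpleGraph (Fin k) | ∃ i, ∃ f : Fin k ↪ Fin (nn w),
                G = (g w i).comap f}).toFinset) : Finset (SimpleGraph (Fin k))) := by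
          ext G
          simp
        rw [h2, Set.ncard_coe_finset]
        have h3 := Finset.card_biUnion_le_card_mul
          ((Finset.range k).filter (fun w => nn w < k ^ 4))
          (fun w => (Set.toFinite {G : SimpleGraph (Fin k) | ∃ i, ∃ f : Fin k ↪ Fin (nn w),
            G = (g w i).comap f}).toFinset) (k ^ (12 * k)) (by
            intro w hw
            rw [Finset.mem_filter] at hw
            rw [← Set.ncard_eq_toFinset_card]
            refine (q_count w k (by omega) (H w) (hH w) (g w) (hg w)).trans ?_
            refine (Nat.pow_le_pow_left hw.2.le (3 * k)).trans ?_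
            rw [← pow_mul]
            apply Nat.pow_le_pow_right (by omega)
            apply le_of_eq
            ring)
        refine h3.trans (Nat.mul_le_mul_right _ ?_)
        exact (Finset.card_filter_le _ _).trans (by rw [Finset.card_range])
      have h2 : {G : SimpleGraph (Fin k) | G.edgeSet.ncard ≤ 12 * k}.ncard ≤ k ^ (36 * k) := by
        refine (sparse_count k (12 * k)).trans ?_
        have : k ^ 2 + 1 ≤ k ^ 3 := by
          have e : k ^ 3 = k * k ^ 2 := by ring
          rw [e]
          nlinarith
        refine (Nat.pow_le_pow_left this _).trans ?_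
        rw [← pow_mul]
        apply Nat.pow_le_pow_right (by omega)
        omega
      have h3 : k * k ^ (12 * k) ≤ k ^ (36 * k) := by
        rw [← pow_succ']
        apply Nat.pow_le_pow_right (by omega)
        omega
      calc _ ≤ k ^ (36 * k) + k ^ (36 * k) := Nat.add_le_add (h1.trans h3) h2
        _ = 2 * k ^ (36 * k) := by ring
        _ ≤ k * k ^ (36 * k) := Nat.mul_le_mul_right _ hk
        _ = k ^ (36 * k + 1) := by rw [← pow_succ']
        _ ≤ k ^ (37 * k) := Nat.pow_le_pow_right (by omega) (by omega)
  · have key : ∀ (A : List Bool → List Bool → Bool) (N : ℕ), ∃ n ≥ N,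
        ∃ G ∈ {G : SimpleGraph (Fin n) | ∃ w, ∃ i, ∃ f : Fin n ↪ Fin (nn w),
          G = (g w i).comap f}, ∀ ℓ : Fin n → List Bool, Decodes A G ℓ →
          ∃ v, Real.sqrt n * Real.log n / 48 < ((ℓ v).length : ℝ) := by
      intro A N
      obtain ⟨i, hi⟩ := hA N A
      refine ⟨nn N, le_nn N, g N i, ⟨N, i, Function.Embedding.refl _, ?_⟩, fun ℓ hℓ => ?_⟩
      · ext a b
        simp
      · obtain ⟨v, hv⟩ := hi ℓ hℓ
        refine ⟨v, ?_⟩
        have h1 : Real.sqrt (nn N : ℝ) = ss N := by
          have : (nn N : ℝ) = (ss N : ℝ) ^ 2 := by unfold nn; push_cast; rfl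
          rw [this, Real.sqrt_sq (by positivity)]
        have h2 : Real.log (nn N : ℝ) = 48 * 2 ^ N * Real.log 2 := by
          rw [nn_eq]
          push_cast
          rw [Real.log_pow]
          push_cast
          ring
        have h3 : Real.log 2 < 1 := by
          have := Real.log_two_lt_d9
          linarith
        have h4 : ((bb N : ℕ) : ℝ) < ((ℓ v).length : ℝ) := by exact_mod_cast hv
        refine lt_of_le_of_lt ?_ h4
        rw [h1, h2]
        unfold bb
        push_cast
        have hs0 : (0 : ℝ) < ss N := by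
          have := ss_large N
          exact_mod_cast (by omega : 0 < ss N)
        have hv0 : (0 : ℝ) < 2 ^ N := by positivity
        have e : (ss N : ℝ) * (48 * 2 ^ N * Real.log 2) / 48 = (2 ^ N * ss N) * Real.log 2 := by
          ring
        rw [e]
        have : 0 < (2 : ℝ) ^ N * ss N := by positivity
        nlinarith
    refine ⟨key, fun c A N => ?_⟩
    obtain ⟨M, hM⟩ := exists_nat_gt (Real.exp (48 * c))
    obtain ⟨n, hn, G, hG, h⟩ := key A (max N (max M 1))
    refine ⟨n, (le_max_left _ _).trans hn, G, hG, ?_⟩
    rintro ⟨ℓ, hℓ, hlen⟩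
    obtain ⟨v, hv⟩ := h ℓ hℓ
    have h1 := hlen v
    have hnM : (M : ℝ) ≤ n := by exact_mod_cast ((le_max_left M 1).trans ((le_max_right _ _).trans hn))
    have hn1 : (1 : ℝ) ≤ n := by exact_mod_cast ((le_max_right M 1).trans ((le_max_right _ _).trans hn))
    have hlog : 48 * c < Real.log n := by
      rw [Real.lt_log_iff_exp_lt (by linarith)]
      linarith
    have hsq : (0 : ℝ) < Real.sqrt n := Real.sqrt_pos.2 (by linarith)
    have h2 : Real.sqrt n * Real.log n / 48 < c * Real.sqrt n := lt_of_lt_of_le hv h1
    have h3 : Real.sqrt n * (Real.log n / 48 - c) < 0 := by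
      have : Real.sqrt n * (Real.log n / 48 - c) = Real.sqrt n * Real.log n / 48 - c * Real.sqrt n := by ring
      linarith
    have h4 : 0 < Real.log n / 48 - c := by linarith
    have := mul_pos hsq h4
    linarith

end Pool.Agent.Results.MP_3772ec_co.SquareRootLabelsFail
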